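import Pool.Agent.Helper70.RN.Sheet
import Pool.Agent.Helper15.HallDiv

/-! # Row PR2 of `Pool.Helper70.RN` (MP_798d7d_nt): pairs with almost the same `e2` -/

set_option autoImplicit false

namespace Pool.Helper70.RN

namespace S89

open Classical in
/-- the pairs in one coordinate with a given difference of squares -/
noncomputable def FF (M c b : ℤ) (m : ℕ) (v : ℤ) : Finset (ℕ × ℕ) :=
  (Finset.range (m ^ 3) ×ˢ Finset.range (m ^ 3)).filter (fun p =>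
    c * ((b + M * (p.1 : ℤ)) ^ 2 - (b + M * (p.2 : ℤ)) ^ 2) = v)

theorem MM_pos : 0 < MM := by
  unfold MM
  have := Nat.factorial_pos QQ
  positivity

theorem FF_zero (M : ℤ) (hM : 0 < M) (c b : ℤ) (hc : c ≠ 0) (m : ℕ) : (FF M c b m 0).card ≤ 2 * m ^ 3 := by
  classical
  have h : (FF M c b m 0).card ≤ ∑ x ∈ Finset.range (m ^ 3),
      ((FF M c b m 0).filter (fun p => p.1 = x)).card := by
    rw [← Finset.card_eq_sum_card_fiberwise]
    intro p hp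
    exact (Finset.mem_product.1 (Finset.mem_filter.1 hp).1).1
  refine h.trans ?_
  have h2 : ∀ x ∈ Finset.range (m ^ 3), ((FF M c b m 0).filter (fun p => p.1 = x)).card ≤ 2 := by
    intro x _
    by_contra hcon
    rw [not_le, Finset.two_lt_card_iff] at hcon
    obtain ⟨p, q, r, hp, hq, hr, hpq, hpr, hqr⟩ := hcon
    have key : ∀ p ∈ (FF M c b m 0).filter (fun p => p.1 = x), p.1 = x ∧
        (M * (p.2 : ℤ) = M * (x : ℤ) ∨ M * (p.2 : ℤ) = -2 * b - M * (x : ℤ)) := by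
      intro p hp
      rw [Finset.mem_filter, FF, Finset.mem_filter] at hp
      obtain ⟨⟨_, h1⟩, h2⟩ := hp
      refine ⟨h2, ?_⟩
      rw [h2] at h1
      have h3 : (b + M * (x : ℤ)) ^ 2 - (b + M * (p.2 : ℤ)) ^ 2 = 0 := by
        rcases mul_eq_zero.1 h1 with h | h
        · exact absurd h hc
        · exact h
      have h4 : (M * (x : ℤ) - M * (p.2 : ℤ)) * (2 * b + M * (x : ℤ) + M * (p.2 : ℤ)) = 0 := by
        rw [← h3]; ring
      rcases mul_eq_zero.1 h4 with h | h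
      · left; linarith
      · right; linarith
    have inj : ∀ p q : ℕ × ℕ, p.1 = x → q.1 = x → M * (p.2 : ℤ) = M * (q.2 : ℤ) → p = q := by
      intro p q h1 h2 h3
      have h4 : (p.2 : ℤ) = q.2 := mul_left_cancel₀ hM.ne' h3
      exact Prod.ext (h1.trans h2.symm) (by exact_mod_cast h4)
    obtain ⟨p1, p2⟩ := key p hp
    obtain ⟨q1, q2⟩ := key q hq
    obtain ⟨r1, r2⟩ := key r hr
    rcases p2 with p2 | p2 <;> rcases q2 with q2 | q2
    · exact hpq (inj p q p1 q1 (p2.trans q2.symm))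
    · rcases r2 with r2 | r2
      · exact hpr (inj p r p1 r1 (p2.trans r2.symm))
      · exact hqr (inj q r q1 r1 (q2.trans r2.symm))
    · rcases r2 with r2 | r2
      · exact hqr (inj q r q1 r1 (q2.trans r2.symm))
      · exact hpr (inj p r p1 r1 (p2.trans r2.symm))
    · exact hpq (inj p q p1 q1 (p2.trans q2.symm))
  refine (Finset.sum_le_sum h2).trans ?_
  rw [Finset.sum_const, Finset.card_range, smul_eq_mul]
  omega

/-- the divisor bound -/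
theorem FF_ne (M : ℤ) (hM : 0 < M) (c b : ℤ) (ε : ℝ) (hε : 0 < ε) : ∃ C : ℝ, 1 ≤ C ∧ ∀ m : ℕ, 1 ≤ m → ∀ v : ℤ,
    v ≠ 0 → ((FF M c b m v).card : ℝ) ≤ C * (m : ℝ) ^ ε := by
  classical
  obtain ⟨C', hC', hdiv⟩ :=
    Pool.Agent.Helper15.Hall.card_divisors_le_uniform (ε / 6) (by positivity)
  set L : ℕ := c.natAbs * (2 * (b.natAbs + M.natAbs) ^ 2) with hL
  refine ⟨2 * C' * ((L : ℝ) ^ (ε / 6) + 1), ?_, ?_⟩
  · have : (0 : ℝ) ≤ (L : ℝ) ^ (ε / 6) := by positivity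
    nlinarith
  intro m hm v hv
  rcases Finset.eq_empty_or_nonempty (FF M c b m v) with h0 | ⟨p0, hp0⟩
  · rw [h0, Finset.card_empty]
    have : (0 : ℝ) ≤ (L : ℝ) ^ (ε / 6) := by positivity
    push_cast
    positivity
  -- the bound for `v`
  have hbound : v.natAbs ≤ L * m ^ 6 := by
    rw [FF, Finset.mem_filter, Finset.mem_product, Finset.mem_range, Finset.mem_range] at hp0
    obtain ⟨⟨h1, h2⟩, h3⟩ := hp0
    have hx : ∀ x : ℕ, x < m ^ 3 → (b + M * (x : ℤ)).natAbs ≤ (b.natAbs + M.natAbs) * m ^ 3 := by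
      intro x hx
      have h4 : (b + M * (x : ℤ)).natAbs ≤ b.natAbs + M.natAbs * x := by
        refine (Int.natAbs_add_le _ _).trans ?_
        rw [Int.natAbs_mul, Int.natAbs_natCast]
      have h5 : 1 ≤ m ^ 3 := Nat.one_le_pow _ _ hm
      calc (b + M * (x : ℤ)).natAbs ≤ b.natAbs + M.natAbs * x := h4
        _ ≤ b.natAbs * m ^ 3 + M.natAbs * m ^ 3 :=
            Nat.add_le_add (Nat.le_mul_of_pos_right _ h5) (Nat.mul_le_mul_left _ hx.le)
        _ = _ := by ring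
    have hs : ∀ x : ℕ, x < m ^ 3 → ((b + M * (x : ℤ)) ^ 2).natAbs ≤
        (b.natAbs + M.natAbs) ^ 2 * m ^ 6 := by
      intro x hx'
      rw [Int.natAbs_pow]
      calc (b + M * (x : ℤ)).natAbs ^ 2 ≤ ((b.natAbs + M.natAbs) * m ^ 3) ^ 2 :=
            Nat.pow_le_pow_left (hx x hx') 2
        _ = _ := by ring
    have h6 := hs _ h1
    have h7 := hs _ h2
    rw [← h3, Int.natAbs_mul]
    calc c.natAbs * ((b + M * (p0.1 : ℤ)) ^ 2 - (b + M * (p0.2 : ℤ)) ^ 2).natAbs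
        ≤ c.natAbs * (((b + M * (p0.1 : ℤ)) ^ 2).natAbs + ((b + M * (p0.2 : ℤ)) ^ 2).natAbs) :=
          Nat.mul_le_mul_left _ (Int.natAbs_sub_le _ _)
      _ ≤ c.natAbs * ((b.natAbs + M.natAbs) ^ 2 * m ^ 6 + (b.natAbs + M.natAbs) ^ 2 * m ^ 6) :=
          Nat.mul_le_mul_left _ (Nat.add_le_add h6 h7)
      _ = L * m ^ 6 := by rw [hL]; ring
  -- the injection into the divisors
  have hvn : v.natAbs ≠ 0 := Int.natAbs_ne_zero.2 hv
  let φ : ℕ × ℕ → ℕ × Bool := fun p =>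
    ((M * (p.1 : ℤ) - M * (p.2 : ℤ)).natAbs, decide (0 ≤ M * (p.1 : ℤ) - M * (p.2 : ℤ)))
  have hcard : (FF M c b m v).card ≤ (v.natAbs.divisors ×ˢ (Finset.univ : Finset Bool)).card := by
    refine Finset.card_le_card_of_injOn φ ?_ ?_
    · intro p hp
      have hp' := Finset.mem_coe.1 hp
      rw [FF, Finset.mem_filter] at hp'
      have h3 := hp'.2
      refine Finset.mem_coe.2 (Finset.mem_product.2 ⟨?_, Finset.mem_univ _⟩)
      rw [Nat.mem_divisors]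
      refine ⟨?_, hvn⟩
      apply Int.natAbs_dvd_natAbs.2
      refine ⟨c * (2 * b + M * (p.1 : ℤ) + M * (p.2 : ℤ)), ?_⟩
      rw [← h3]; ring
    · intro p hp q hq hpq
      have hp' := (Finset.mem_filter.1 (Finset.mem_coe.1 hp)).2
      have hq' := (Finset.mem_filter.1 (Finset.mem_coe.1 hq)).2
      simp only [φ, Prod.mk.injEq, decide_eq_decide] at hpq
      obtain ⟨e1, e2⟩ := hpq
      have e3 : M * (p.1 : ℤ) - M * (p.2 : ℤ) = M * (q.1 : ℤ) - M * (q.2 : ℤ) := by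
        rcases Int.natAbs_eq_natAbs_iff.1 e1 with h | h
        · exact h
        · rcases le_or_gt 0 (M * (p.1 : ℤ) - M * (p.2 : ℤ)) with h5 | h5
          · have h6 := e2.1 h5
            linarith
          · have h6 : ¬ 0 ≤ M * (q.1 : ℤ) - M * (q.2 : ℤ) := fun h7 => absurd (e2.2 h7) (by linarith)
            linarith
      set δ : ℤ := M * (p.1 : ℤ) - M * (p.2 : ℤ) with hδ
      have e4 : c * δ * (2 * b + M * (p.1 : ℤ) + M * (p.2 : ℤ)) = v := by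
        rw [← hp', hδ]; ring
      have e5 : c * δ * (2 * b + M * (q.1 : ℤ) + M * (q.2 : ℤ)) = v := by
        rw [← hq', e3]; ring
      have e6 : c * δ ≠ 0 := by
        intro h
        rw [h, zero_mul] at e4
        exact hv e4.symm
      have e7 : 2 * b + M * (p.1 : ℤ) + M * (p.2 : ℤ) = 2 * b + M * (q.1 : ℤ) + M * (q.2 : ℤ) :=
        mul_left_cancel₀ e6 (e4.trans e5.symm)
      have e8 : M * (p.1 : ℤ) = M * (q.1 : ℤ) := by linarith
      have e9 : M * (p.2 : ℤ) = M * (q.2 : ℤ) := by linarith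
      have f1 : (p.1 : ℤ) = q.1 := mul_left_cancel₀ hM.ne' e8
      have f2 : (p.2 : ℤ) = q.2 := mul_left_cancel₀ hM.ne' e9
      exact Prod.ext (by exact_mod_cast f1) (by exact_mod_cast f2)
  rw [Finset.card_product, Finset.card_univ, Fintype.card_bool] at hcard
  have h8 := hdiv (L * m ^ 6) v.natAbs hvn hbound
  have h9 : (((L * m ^ 6 : ℕ) : ℝ)) ^ (ε / 6) = (L : ℝ) ^ (ε / 6) * (m : ℝ) ^ ε := by
    push_cast
    rw [Real.mul_rpow (by positivity) (by positivity), ← Real.rpow_natCast, ← Real.rpow_mul (by positivity)]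
    norm_num
    left
    ring_nf
  rw [h9] at h8
  have h10 : ((FF M c b m v).card : ℝ) ≤ (v.natAbs.divisors.card : ℝ) * 2 := by exact_mod_cast hcard
  have h11 : (0 : ℝ) ≤ (m : ℝ) ^ ε := by positivity
  nlinarith

/-- the difference of the two quadratic forms -/
theorem e2_sub (M : ℤ) (b : Fin 4 → ℤ) (a a' : Fin 4 → ℕ) :
    4 * ((b 0 + M * (a 0 : ℤ)) ^ 2 - (b 0 + M * (a' 0 : ℤ)) ^ 2) =
      -(e2 (fun i => b i + M * (a i : ℤ)) - e2 (fun i => b i + M * (a' i : ℤ))) -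
      (10 * ((b 1 + M * (a 1 : ℤ)) ^ 2 - (b 1 + M * (a' 1 : ℤ)) ^ 2) +
        10 * ((b 2 + M * (a 2 : ℤ)) ^ 2 - (b 2 + M * (a' 2 : ℤ)) ^ 2) +
        34 * ((b 3 + M * (a 3 : ℤ)) ^ 2 - (b 3 + M * (a' 3 : ℤ)) ^ 2)) := by
  simp only [e2, n1, n2]
  ring

abbrev B1 : Type := ℤ × ((ℕ × ℕ × ℕ) × (ℕ × ℕ × ℕ))
abbrev B2 : Type := ℤ × ((ℕ × ℕ) × (ℕ × ℕ))

def V1 (M : ℤ) (b : Fin 4 → ℤ) (t : B1) : ℤ :=
  -t.1 - (10 * ((b 1 + M * (t.2.1.1 : ℤ)) ^ 2 - (b 1 + M * (t.2.2.1 : ℤ)) ^ 2) +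
    10 * ((b 2 + M * (t.2.1.2.1 : ℤ)) ^ 2 - (b 2 + M * (t.2.2.2.1 : ℤ)) ^ 2) +
    34 * ((b 3 + M * (t.2.1.2.2 : ℤ)) ^ 2 - (b 3 + M * (t.2.2.2.2 : ℤ)) ^ 2))

def V2 (M : ℤ) (b : Fin 4 → ℤ) (t : B2) : ℤ :=
  -t.1 - (10 * ((b 2 + M * (t.2.1.1 : ℤ)) ^ 2 - (b 2 + M * (t.2.2.1 : ℤ)) ^ 2) +
    34 * ((b 3 + M * (t.2.1.2 : ℤ)) ^ 2 - (b 3 + M * (t.2.2.2 : ℤ)) ^ 2))

noncomputable def Bx (k : ℕ) (m : ℕ) : Finset B1 :=
  Finset.Icc (-(k : ℤ)) k ×ˢ
    ((Finset.range (m ^ 3) ×ˢ (Finset.range (m ^ 3) ×ˢ Finset.range (m ^ 3))) ×ˢ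
      (Finset.range (m ^ 3) ×ˢ (Finset.range (m ^ 3) ×ˢ Finset.range (m ^ 3))))

noncomputable def By (k : ℕ) (m : ℕ) : Finset B2 :=
  Finset.Icc (-(k : ℤ)) k ×ˢ
    ((Finset.range (m ^ 3) ×ˢ Finset.range (m ^ 3)) ×ˢ
      (Finset.range (m ^ 3) ×ˢ Finset.range (m ^ 3)))

theorem card_Icc_sym (k : ℕ) : (Finset.Icc (-(k : ℤ)) k).card = 2 * k + 1 := by
  rw [Int.card_Icc]
  omega

theorem card_Bx (k m : ℕ) : (Bx k m).card = (2 * k + 1) * m ^ 18 := by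
  unfold Bx
  simp only [Finset.card_product, card_Icc_sym, Finset.card_range]
  ring

theorem card_By (k m : ℕ) : (By k m).card = (2 * k + 1) * m ^ 12 := by
  unfold By
  simp only [Finset.card_product, card_Icc_sym, Finset.card_range]
  ring

open Classical in
theorem zero_count (M : ℤ) (b : Fin 4 → ℤ) (k m F : ℕ)
    (hF : ∀ v : ℤ, (FF M 10 (b 1) m v).card ≤ F) :
    ((Bx k m).filter (fun t => V1 M b t = 0)).card ≤ (2 * k + 1) * m ^ 12 * F := by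
  set T := (Bx k m).filter (fun t => V1 M b t = 0) with hT
  let γ : B1 → B2 := fun t => (t.1, ((t.2.1.2.1, t.2.1.2.2), (t.2.2.2.1, t.2.2.2.2)))
  have h1 : ∀ t ∈ T, γ t ∈ By k m := by
    intro t ht
    rw [hT, Finset.mem_filter] at ht
    have h2 := ht.1
    simp only [Bx, Finset.mem_product] at h2
    simp only [By, Finset.mem_product, γ]
    tauto
  rw [Finset.card_eq_sum_card_fiberwise (f := γ) (t := By k m) (fun t ht => h1 t ht)]
  have h3 : ∀ s ∈ By k m, (T.filter (fun t => γ t = s)).card ≤ F := by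
    intro s _
    refine le_trans ?_ (hF (V2 M b s))
    refine Finset.card_le_card_of_injOn (fun t => (t.2.1.1, t.2.2.1)) ?_ ?_
    · intro t ht
      have ht' := Finset.mem_coe.1 ht
      rw [Finset.mem_filter, hT, Finset.mem_filter] at ht'
      obtain ⟨⟨h4, h5⟩, h6⟩ := ht'
      refine Finset.mem_coe.2 ?_
      rw [FF, Finset.mem_filter]
      simp only [Bx, Finset.mem_product] at h4
      refine ⟨Finset.mem_product.2 ⟨h4.2.1.1, h4.2.2.1⟩, ?_⟩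
      rw [← h6]
      simp only [V1] at h5
      simp only [V2, γ]
      linarith
    · intro t ht t' ht' h
      have h4 := (Finset.mem_filter.1 (Finset.mem_coe.1 ht)).2
      have h5 := (Finset.mem_filter.1 (Finset.mem_coe.1 ht')).2
      have h6 := h4.trans h5.symm
      obtain ⟨n, ⟨x1, x2, x3⟩, ⟨y1, y2, y3⟩⟩ := t
      obtain ⟨n', ⟨x1', x2', x3'⟩, ⟨y1', y2', y3'⟩⟩ := t'
      simp only [γ, Prod.mk.injEq] at h6 h ⊢
      tauto
  refine (Finset.sum_le_sum h3).trans ?_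
  rw [Finset.sum_const, card_By, smul_eq_mul]

open Classical in
theorem pair_count (M : ℤ) (b : Fin 4 → ℤ) (k m : ℕ) (T : Finset ((Fin 4 → ℕ) × (Fin 4 → ℕ)))
    (hT : ∀ p ∈ T, (∀ i, p.1 i < m ^ 3) ∧ (∀ i, p.2 i < m ^ 3) ∧
      |e2 (fun i => b i + M * (p.1 i : ℤ)) - e2 (fun i => b i + M * (p.2 i : ℤ))| ≤ (k : ℤ)) :
    T.card ≤ ∑ t ∈ Bx k m, (FF M 4 (b 0) m (V1 M b t)).card := by
  let γ : (Fin 4 → ℕ) × (Fin 4 → ℕ) → B1 := fun p =>
    (e2 (fun i => b i + M * (p.1 i : ℤ)) - e2 (fun i => b i + M * (p.2 i : ℤ)),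
      ((p.1 1, p.1 2, p.1 3), (p.2 1, p.2 2, p.2 3)))
  have h1 : ∀ p ∈ T, γ p ∈ Bx k m := by
    intro p hp
    obtain ⟨h2, h3, h4⟩ := hT p hp
    simp only [Bx, Finset.mem_product, Finset.mem_Icc, Finset.mem_range, γ]
    exact ⟨abs_le.1 h4, ⟨h2 1, h2 2, h2 3⟩, ⟨h3 1, h3 2, h3 3⟩⟩
  rw [Finset.card_eq_sum_card_fiberwise (f := γ) (t := Bx k m) (fun t ht => h1 t ht)]
  refine Finset.sum_le_sum fun s _ => ?_
  refine Finset.card_le_card_of_injOn (fun p => (p.1 0, p.2 0)) ?_ ?_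
  · intro p hp
    have hp' := Finset.mem_coe.1 hp
    rw [Finset.mem_filter] at hp'
    obtain ⟨h4, h6⟩ := hp'
    obtain ⟨h2, h3, _⟩ := hT p h4
    refine Finset.mem_coe.2 ?_
    rw [FF, Finset.mem_filter]
    refine ⟨Finset.mem_product.2 ⟨Finset.mem_range.2 (h2 0), Finset.mem_range.2 (h3 0)⟩, ?_⟩
    rw [← h6]
    simp only [V1, γ]
    exact e2_sub M b p.1 p.2
  · intro p hp q hq h
    have h4 := (Finset.mem_filter.1 (Finset.mem_coe.1 hp)).2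
    have h5 := (Finset.mem_filter.1 (Finset.mem_coe.1 hq)).2
    have h6 := h4.trans h5.symm
    simp only [γ, Prod.mk.injEq] at h6 h
    obtain ⟨_, ⟨x1, x2, x3⟩, ⟨y1, y2, y3⟩⟩ := h6
    refine Prod.ext (funext fun i => ?_) (funext fun i => ?_)
    · fin_cases i
      · exact h.1
      · exact x1
      · exact x2
      · exact x3
    · fin_cases i
      · exact h.2
      · exact y1
      · exact y2
      · exact y3

open Classical in
theorem main_count (M : ℤ) (hM : 0 < M) (b : Fin 4 → ℤ) (K : ℤ) (ε : ℝ) (hε : 0 < ε) :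
    ∃ C : ℝ, 0 < C ∧ ∀ m : ℕ, 1 ≤ m →
    ((((Fintype.piFinset fun _ : Fin 4 => Finset.range (m ^ 3)) ×ˢ
      (Fintype.piFinset fun _ : Fin 4 => Finset.range (m ^ 3))).filter (fun p =>
        |e2 (fun i => b i + M * (p.1 i : ℤ)) - e2 (fun i => b i + M * (p.2 i : ℤ))| ≤
          K * (m : ℤ) ^ 2)).card : ℝ) ≤ C * (m : ℝ) ^ (20 + ε) := by
  obtain ⟨C1, hC1, h1⟩ := FF_ne M hM 4 (b 0) ε hε
  obtain ⟨C2, hC2, h2⟩ := FF_ne M hM 10 (b 1) 1 one_pos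
  set κ : ℕ := K.natAbs with hκ
  refine ⟨(2 * κ + 1) * (C1 + 2 * (C2 + 3)), by positivity, fun m hm => ?_⟩
  set T := ((Fintype.piFinset fun _ : Fin 4 => Finset.range (m ^ 3)) ×ˢ
      (Fintype.piFinset fun _ : Fin 4 => Finset.range (m ^ 3))).filter (fun p =>
        |e2 (fun i => b i + M * (p.1 i : ℤ)) - e2 (fun i => b i + M * (p.2 i : ℤ))| ≤
          K * (m : ℤ) ^ 2) with hT
  have hmr : (1 : ℝ) ≤ m := by exact_mod_cast hm
  have hme : (1 : ℝ) ≤ (m : ℝ) ^ ε := Real.one_le_rpow hmr hε.le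
  have h3 : T.card ≤ ∑ t ∈ Bx (κ * m ^ 2) m, (FF M 4 (b 0) m (V1 M b t)).card := by
    apply pair_count
    intro p hp
    rw [hT, Finset.mem_filter, Finset.mem_product, Fintype.mem_piFinset,
      Fintype.mem_piFinset] at hp
    obtain ⟨⟨h4, h5⟩, h6⟩ := hp
    refine ⟨fun i => Finset.mem_range.1 (h4 i), fun i => Finset.mem_range.1 (h5 i), h6.trans ?_⟩
    push_cast
    rw [hκ, Int.natCast_natAbs]
    exact mul_le_mul_of_nonneg_right (le_abs_self K) (by positivity)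
  -- the fibres with value zero
  set Z := (Bx (κ * m ^ 2) m).filter (fun t => V1 M b t = 0) with hZ
  have hF : ∀ v : ℤ, (FF M 10 (b 1) m v).card ≤ ⌊C2 * (m : ℝ)⌋₊ + 2 * m ^ 3 := by
    intro v
    by_cases hv : v = 0
    · rw [hv]
      have := FF_zero M hM 10 (b 1) (by norm_num) m
      omega
    · have h4 := h2 m hm v hv
      rw [Real.rpow_one] at h4
      have h5 := Nat.le_floor h4
      omega
  have h4 := zero_count M b (κ * m ^ 2) m _ hF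
  have h5 : (T.card : ℝ) ≤ ∑ t ∈ Bx (κ * m ^ 2) m,
      (C1 * (m : ℝ) ^ ε + if V1 M b t = 0 then (2 * (m : ℝ) ^ 3) else 0) := by
    refine le_trans (Nat.cast_le.mpr h3) ?_
    push_cast
    refine Finset.sum_le_sum fun t _ => ?_
    split_ifs with h6
    · rw [h6]
      have h7 : ((FF M 4 (b 0) m 0).card : ℝ) ≤ 2 * (m : ℝ) ^ 3 := by
        exact_mod_cast FF_zero M hM 4 (b 0) (by norm_num) m
      have : 0 ≤ C1 * (m : ℝ) ^ ε := by positivity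
      linarith
    · rw [add_zero]
      exact h1 m hm _ h6
  rw [Finset.sum_add_distrib, Finset.sum_const, ← Finset.sum_filter, Finset.sum_const, ← hZ,
    card_Bx, nsmul_eq_mul, nsmul_eq_mul] at h5
  have h6 : (Z.card : ℝ) ≤ (2 * (κ * (m : ℝ) ^ 2) + 1) * (m : ℝ) ^ 12 *
      (C2 * m + 2 * (m : ℝ) ^ 3) := by
    have h7 : (Z.card : ℝ) ≤ (2 * (κ * (m : ℝ) ^ 2) + 1) * (m : ℝ) ^ 12 *
      ((⌊C2 * (m : ℝ)⌋₊ : ℝ) + 2 * (m : ℝ) ^ 3) := by exact_mod_cast h4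
    refine h7.trans ?_
    have h8 : (⌊C2 * (m : ℝ)⌋₊ : ℝ) ≤ C2 * m := Nat.floor_le (by positivity)
    exact mul_le_mul_of_nonneg_left (by linarith) (by positivity)
  have hm2 : (1 : ℝ) ≤ (m : ℝ) ^ 2 := one_le_pow₀ hmr
  have hk : 2 * ((κ : ℝ) * (m : ℝ) ^ 2) + 1 ≤ (2 * κ + 1) * (m : ℝ) ^ 2 := by nlinarith
  have hm3 : (m : ℝ) ≤ (m : ℝ) ^ 3 := le_self_pow₀ hmr (by norm_num)
  have h9 : (Z.card : ℝ) ≤ ((2 * κ + 1) * (m : ℝ) ^ 2) * (m : ℝ) ^ 12 *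
      ((C2 + 2) * (m : ℝ) ^ 3) := by
    refine h6.trans ?_
    have h10 : C2 * (m : ℝ) + 2 * (m : ℝ) ^ 3 ≤ (C2 + 2) * (m : ℝ) ^ 3 := by nlinarith
    have h11 : (0 : ℝ) ≤ C2 * (m : ℝ) + 2 * (m : ℝ) ^ 3 := by positivity
    have h12 : (2 * ((κ : ℝ) * (m : ℝ) ^ 2) + 1) * (m : ℝ) ^ 12 ≤
        ((2 * κ + 1) * (m : ℝ) ^ 2) * (m : ℝ) ^ 12 :=
      mul_le_mul_of_nonneg_right hk (by positivity)
    exact mul_le_mul h12 h10 h11 (by positivity)
  have h13 : (m : ℝ) ^ (20 + ε) = (m : ℝ) ^ 20 * (m : ℝ) ^ ε := by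
    rw [Real.rpow_add (by linarith)]
    norm_cast
  rw [h13]
  have h14 : (((2 * (κ * m ^ 2) + 1) * m ^ 18 : ℕ) : ℝ) ≤ (2 * κ + 1) * (m : ℝ) ^ 20 := by
    push_cast
    calc (2 * ((κ : ℝ) * (m : ℝ) ^ 2) + 1) * (m : ℝ) ^ 18
        ≤ ((2 * κ + 1) * (m : ℝ) ^ 2) * (m : ℝ) ^ 18 :=
          mul_le_mul_of_nonneg_right hk (by positivity)
      _ = _ := by ring
  have h15 : (((2 * (κ * m ^ 2) + 1) * m ^ 18 : ℕ) : ℝ) * (C1 * (m : ℝ) ^ ε) ≤
      (2 * κ + 1) * (m : ℝ) ^ 20 * (C1 * (m : ℝ) ^ ε) :=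
    mul_le_mul_of_nonneg_right h14 (by positivity)
  have h16 : (Z.card : ℝ) * (2 * (m : ℝ) ^ 3) ≤
      (((2 * κ + 1) * (m : ℝ) ^ 2) * (m : ℝ) ^ 12 * ((C2 + 2) * (m : ℝ) ^ 3)) *
        (2 * (m : ℝ) ^ 3) := mul_le_mul_of_nonneg_right h9 (by positivity)
  have h17 : (((2 * κ + 1) * (m : ℝ) ^ 2) * (m : ℝ) ^ 12 * ((C2 + 2) * (m : ℝ) ^ 3)) *
        (2 * (m : ℝ) ^ 3) = (2 * κ + 1) * (2 * (C2 + 2)) * (m : ℝ) ^ 20 := by ring
  have h18 : (2 * (κ : ℝ) + 1) * (2 * (C2 + 2)) * (m : ℝ) ^ 20 ≤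
      (2 * κ + 1) * (2 * (C2 + 2)) * (m : ℝ) ^ 20 * (m : ℝ) ^ ε :=
    le_mul_of_one_le_right (by positivity) hme
  have h19 : (0 : ℝ) ≤ (2 * (κ : ℝ) + 1) * ((m : ℝ) ^ 20 * (m : ℝ) ^ ε) := by positivity
  nlinarith

end S89

open Classical in
/-- row PR2 -/
theorem st_PR2 : ST_PR2 := fun K ε hε => S89.main_count MM S89.MM_pos ub K ε hε

end Pool.Helper70.RN
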